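import Pool.Agent.H.MP_1a7c10_an.G
set_option autoImplicit false

namespace Pool.Agent.H.MP_a71740_an
open Set Metric Filter Topology Finsupp
open Pool.Agent.H.MP_1a7c10_an

universe u

variable {p : ℝ} {M : Type u}

noncomputable def ev (e : M × M) : M →₀ ℝ := single e.1 1 - single e.2 1

noncomputable def bd : (M × M →₀ ℝ) →ₗ[ℝ] (M →₀ ℝ) := linearCombination ℝ ev

noncomputable def cost (p : ℝ) (D : M → M → ℝ) (c : M × M →₀ ℝ) : ℝ :=
  ∑ e ∈ c.support, |c e| ^ p * D e.1 e.2

lemma bd_single (e : M × M) (a : ℝ) : bd (single e a) = a • ev e := by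
  simp [bd]

lemma bd_eq (c : M × M →₀ ℝ) : bd c = ∑ e ∈ c.support, c e • ev e := by
  rw [bd, linearCombination_apply, Finsupp.sum]

lemma cost_eq (hp : 0 < p) (D : M → M → ℝ) (c : M × M →₀ ℝ) {s : Finset (M × M)}
    (hs : c.support ⊆ s) : cost p D c = ∑ e ∈ s, |c e| ^ p * D e.1 e.2 := by
  refine Finset.sum_subset hs (fun e _ he => ?_)
  rw [notMem_support_iff.mp he, abs_zero, Real.zero_rpow hp.ne', zero_mul]

lemma cost_single (hp : 0 < p) (D : M → M → ℝ) (e : M × M) (a : ℝ) :
    cost p D (single e a) = |a| ^ p * D e.1 e.2 := by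
  rw [cost_eq hp D _ support_single_subset]; simp

lemma cost_sn (hp : 0 < p) (hp1 : p ≤ 1) {D : M → M → ℝ} (hD : ∀ x y, 0 ≤ D x y) :
    SN ℝ p (cost p D) where
  hp := hp
  add c c' := by
    classical
    rw [cost_eq hp D (c + c') support_add, cost_eq hp D c Finset.subset_union_left,
      cost_eq hp D c' Finset.subset_union_right, ← Finset.sum_add_distrib]
    refine Finset.sum_le_sum (fun e _ => ?_)
    rw [← add_mul, Finsupp.add_apply]
    refine mul_le_mul_of_nonneg_right ?_ (hD _ _)
    exact (Real.rpow_le_rpow (abs_nonneg _) (abs_add_le _ _) hp.le).trans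
      (Real.rpow_add_le_add_rpow (abs_nonneg _) (abs_nonneg _) hp.le hp1)
  smul t c := by
    rw [cost_eq hp D (t • c) support_smul, cost, Finset.mul_sum]
    refine Finset.sum_congr rfl (fun e _ => ?_)
    rw [Finsupp.smul_apply, smul_eq_mul, abs_mul, Real.mul_rpow (abs_nonneg _) (abs_nonneg _),
      Real.norm_eq_abs, mul_assoc]

def Red (p : ℝ) (D : M → M → ℝ) (c : M × M →₀ ℝ) : Prop :=
  ∃ c', bd c' = bd c ∧ cost p D c' ≤ cost p D c ∧ c'.support.card < c.support.card

lemma red_dep0 (hp : 0 < p) (hp1 : p ≤ 1) {D : M → M → ℝ} (hD : ∀ x y, 0 ≤ D x y)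
    (c k : M × M →₀ ℝ) (hk : k.support ⊆ c.support) (hb : bd k = 0)
    (hS : ∑ e ∈ c.support, |c e| ^ p * D e.1 e.2 * (k e / c e) ≤ 0)
    (hneg : ∃ e ∈ c.support, k e / c e < 0) : Red p D c := by
  classical
  obtain ⟨e0, he0, hneg⟩ := hneg
  obtain ⟨e1, he1, hmin⟩ := Finset.exists_min_image c.support (fun e => k e / c e) ⟨e0, he0⟩
  have r1 : k e1 / c e1 < 0 := lt_of_le_of_lt (hmin e0 he0) hneg
  set t := -1 / (k e1 / c e1) with ht
  have t0 : 0 < t := div_pos_of_neg_of_neg (by norm_num) r1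
  have t1 : t * (k e1 / c e1) = -1 := by rw [ht]; exact div_mul_cancel₀ _ r1.ne
  have hv : ∀ e ∈ c.support, (c + t • k) e = c e * (1 + t * (k e / c e)) := by
    intro e he
    have := mem_support_iff.mp he
    rw [Finsupp.add_apply, Finsupp.smul_apply, smul_eq_mul]
    field_simp
  have hsub : (c + t • k).support ⊆ c.support :=
    support_add.trans (Finset.union_subset subset_rfl (support_smul.trans hk))
  refine ⟨c + t • k, by rw [map_add, map_smul, hb, smul_zero, add_zero], ?_, ?_⟩
  · rw [cost_eq hp D _ hsub, cost]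
    have h1 : ∀ e ∈ c.support, |(c + t • k) e| ^ p * D e.1 e.2 ≤
        |c e| ^ p * D e.1 e.2 + p * t * (|c e| ^ p * D e.1 e.2 * (k e / c e)) := by
      intro e he
      have a1 : -1 ≤ t * (k e / c e) := by
        rw [← t1]; exact mul_le_mul_of_nonneg_left (hmin e he) t0.le
      rw [hv e he, abs_mul, abs_of_nonneg (by linarith : 0 ≤ 1 + t * (k e / c e)),
        Real.mul_rpow (abs_nonneg _) (by linarith)]
      have a2 := rpow_one_add_le_one_add_mul_self a1 hp.le hp1
      have a3 := mul_le_mul_of_nonneg_left a2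
        (mul_nonneg (Real.rpow_nonneg (abs_nonneg (c e)) p) (hD e.1 e.2))
      linarith
    refine (Finset.sum_le_sum h1).trans ?_
    rw [Finset.sum_add_distrib, ← Finset.mul_sum]
    have := mul_nonpos_of_nonneg_of_nonpos (mul_pos hp t0).le hS
    linarith
  · refine Finset.card_lt_card ⟨hsub, fun h => ?_⟩
    have := mem_support_iff.mp (h he1)
    rw [hv e1 he1, t1] at this
    simp at this

lemma red_dep (hp : 0 < p) (hp1 : p ≤ 1) {D : M → M → ℝ} (hD : ∀ x y, 0 ≤ D x y)
    (c k : M × M →₀ ℝ) (hk : k.support ⊆ c.support) (hb : bd k = 0) (hk0 : k ≠ 0) :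
    Red p D c := by
  have hw : ∀ e : M × M, 0 ≤ |c e| ^ p * D e.1 e.2 := fun e =>
    mul_nonneg (Real.rpow_nonneg (abs_nonneg _) _) (hD _ _)
  have hneg : ∑ e ∈ c.support, |c e| ^ p * D e.1 e.2 * ((-k) e / c e)
      = -∑ e ∈ c.support, |c e| ^ p * D e.1 e.2 * (k e / c e) := by
    rw [← Finset.sum_neg_distrib]
    refine Finset.sum_congr rfl (fun e _ => ?_)
    rw [Finsupp.neg_apply]; ring
  have hk' : (-k).support ⊆ c.support := by rwa [support_neg]
  have hb' : bd (-k) = 0 := by rw [map_neg, hb, neg_zero]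
  obtain ⟨e0, he0⟩ := Finsupp.support_nonempty_iff.mpr hk0
  have r0 : k e0 / c e0 ≠ 0 := div_ne_zero (mem_support_iff.mp he0) (mem_support_iff.mp (hk he0))
  by_cases h1 : ∃ e ∈ c.support, k e / c e < 0
  · by_cases h2 : ∃ e ∈ c.support, (-k) e / c e < 0
    · rcases le_total (∑ e ∈ c.support, |c e| ^ p * D e.1 e.2 * (k e / c e)) 0 with h | h
      · exact red_dep0 hp hp1 hD c k hk hb h h1
      · exact red_dep0 hp hp1 hD c (-k) hk' hb' (by rw [hneg]; linarith) h2
    · refine red_dep0 hp hp1 hD c k hk hb (Finset.sum_nonpos (fun e he => ?_)) h1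
      push Not at h2
      have := h2 e he
      rw [Finsupp.neg_apply, neg_div] at this
      exact mul_nonpos_of_nonneg_of_nonpos (hw e) (by linarith)
  · push Not at h1
    refine red_dep0 hp hp1 hD c (-k) hk' hb' ?_ ⟨e0, hk he0, ?_⟩
    · rw [hneg, neg_nonpos]
      exact Finset.sum_nonneg (fun e he => mul_nonneg (hw e) (h1 e he))
    · rw [Finsupp.neg_apply, neg_div, neg_lt_zero]
      exact lt_of_le_of_ne (h1 e0 (hk he0)) r0.symm

lemma ev_inc {D : M → M → ℝ} (hs : ∀ x y, D x y = D y x) {e : M × M} (he : e.1 ≠ e.2) {v : M}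
    (hv : e.1 = v ∨ e.2 = v) : ∃ (σ : ℝ) (w : M), |σ| = 1 ∧ w ≠ v ∧
      ev e = σ • (single v 1 - single w 1) ∧ D e.1 e.2 = D v w := by
  rcases hv with rfl | rfl
  · exact ⟨1, e.2, abs_one, he.symm, by simp [ev], rfl⟩
  · exact ⟨-1, e.1, by simp, he, by simp [ev], hs _ _⟩

lemma ev_not {e : M × M} {v : M} (hv : ¬ (e.1 = v ∨ e.2 = v)) : ev e v = 0 := by
  push Not at hv
  simp [ev, single_eq_of_ne' hv.1, single_eq_of_ne' hv.2]

open Classical in
lemma bd_at (c : M × M →₀ ℝ) (v : M) :
    bd c v = ∑ e ∈ c.support.filter (fun e => e.1 = v ∨ e.2 = v), c e * ev e v := by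
  rw [bd_eq, Finsupp.finset_sum_apply, Finset.sum_filter]
  refine Finset.sum_congr rfl (fun e _ => ?_)
  split_ifs with h
  · simp
  · simp [ev_not h]

open Classical in
lemma deg3 (hp : 0 < p) (hp1 : p ≤ 1) {D : M → M → ℝ} (hD : ∀ x y, 0 ≤ D x y)
    (hs : ∀ x y, D x y = D y x) (ht : ∀ x y z, D x z ≤ D x y + D y z)
    (c : M × M →₀ ℝ) (hc : ¬ Red p D c) (v : M) (hv : bd c v = 0)
    (hne : (c.support.filter (fun e => e.1 = v ∨ e.2 = v)).Nonempty) :
    3 ≤ (c.support.filter (fun e => e.1 = v ∨ e.2 = v)).card := by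
  have nl : ∀ e ∈ c.support, e.1 ≠ e.2 := by
    intro e he h
    refine hc (red_dep hp hp1 hD c (single e 1)
      (support_single_subset.trans (by simpa using mem_support_iff.mp he)) ?_ (by simp))
    rw [bd_single, ev, h, sub_self, smul_zero]
  have hval : ∀ (σ : ℝ) (w : M), w ≠ v → (σ • (single v 1 - single w 1 : M →₀ ℝ)) v = σ := by
    intro σ w hw
    simp [single_eq_of_ne' hw]
  rw [bd_at] at hv
  by_contra hlt
  have h0 := hne.card_pos
  have : (c.support.filter (fun e => e.1 = v ∨ e.2 = v)).card = 1 ∨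
      (c.support.filter (fun e => e.1 = v ∨ e.2 = v)).card = 2 := by omega
  rcases this with h | h
  · obtain ⟨e, he⟩ := Finset.card_eq_one.mp h
    have hm : e ∈ c.support.filter (fun e => e.1 = v ∨ e.2 = v) := by rw [he]; simp
    obtain ⟨m1, m2⟩ := Finset.mem_filter.mp hm
    obtain ⟨σ, w, s1, s2, s3, _⟩ := ev_inc hs (nl e m1) m2
    rw [he, Finset.sum_singleton, s3, hval σ w s2] at hv
    rcases mul_eq_zero.mp hv with h' | h'
    · exact mem_support_iff.mp m1 h'
    · rw [h'] at s1; simp at s1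
  · obtain ⟨e, e', hee, he⟩ := Finset.card_eq_two.mp h
    have hm : e ∈ c.support.filter (fun e => e.1 = v ∨ e.2 = v) := by rw [he]; simp
    have hm' : e' ∈ c.support.filter (fun e => e.1 = v ∨ e.2 = v) := by rw [he]; simp
    obtain ⟨m1, m2⟩ := Finset.mem_filter.mp hm
    obtain ⟨m1', m2'⟩ := Finset.mem_filter.mp hm'
    obtain ⟨σ, w, s1, s2, s3, s4⟩ := ev_inc hs (nl e m1) m2
    obtain ⟨σ', w', s1', s2', s3', s4'⟩ := ev_inc hs (nl e' m1') m2'
    rw [he, Finset.sum_pair hee, s3, s3', hval σ w s2, hval σ' w' s2'] at hv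
    apply hc
    set c0 := (c.erase e).erase e' with hc0
    have hsupp : c0.support = (c.support.erase e).erase e' := by
      rw [hc0, support_erase, support_erase]
    have hm3 : e' ∈ c.support.erase e := Finset.mem_erase.mpr ⟨hee.symm, m1'⟩
    have hdec : c = c0 + single e (c e) + single e' (c e') := by
      ext x
      simp only [hc0, Finsupp.add_apply, erase_apply, single_apply]
      by_cases x1 : x = e'
      · subst x1; simp [hee]
      · by_cases x2 : x = e
        · subst x2; simp [x1, hee.symm]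
        · simp [x1, x2, Ne.symm x1, Ne.symm x2]
    have hcost : cost p D c = cost p D c0 + |c e| ^ p * D v w + |c e'| ^ p * D v w' := by
      rw [cost, ← Finset.add_sum_erase _ _ m1, ← Finset.add_sum_erase _ _ hm3, cost, hsupp,
        s4, s4']
      have : ∑ x ∈ (c.support.erase e).erase e', |c0 x| ^ p * D x.1 x.2
          = ∑ x ∈ (c.support.erase e).erase e', |c x| ^ p * D x.1 x.2 := by
        refine Finset.sum_congr rfl (fun x hx => ?_)
        have x1 := (Finset.mem_erase.mp hx).1
        have x2 := (Finset.mem_erase.mp (Finset.mem_erase.mp hx).2).1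
        rw [hc0, erase_ne x1, erase_ne x2]
      rw [this]; ring
    have habs : |c e'| = |c e| := by
      have : c e' * σ' = -(c e * σ) := by linarith
      have := congrArg abs this
      rwa [abs_neg, abs_mul, abs_mul, s1, s1', mul_one, mul_one] at this
    refine ⟨c0 + single (w', w) (c e * σ), ?_, ?_, ?_⟩
    · conv_rhs => rw [hdec]
      rw [map_add, map_add, map_add, bd_single, bd_single, bd_single, s3, s3', smul_smul,
        smul_smul, show c e' * σ' = -(c e * σ) by linarith, ev]
      simp only [neg_smul, smul_sub]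
      abel
    · refine ((cost_sn hp hp1 hD).add _ _).trans ?_
      rw [cost_single hp, hcost, habs, abs_mul, s1, mul_one]
      have a1 := ht w' v w
      rw [hs w' v] at a1
      have a2 := mul_le_mul_of_nonneg_left a1 (Real.rpow_nonneg (abs_nonneg (c e)) p)
      simp only
      linarith
    · refine lt_of_le_of_lt (Finset.card_le_card support_add) ?_
      refine lt_of_le_of_lt (Finset.card_union_le _ _) ?_
      have a1 := Finset.card_le_card (support_single_subset (a := (w', w)) (b := c e * σ))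
      rw [Finset.card_singleton] at a1
      have a2 := Finset.card_erase_of_mem hm3
      have a3 := Finset.card_erase_of_mem m1
      have a4 := Finset.card_pos.mpr ⟨e', hm3⟩
      rw [hsupp]
      omega

lemma card_le_of_not_red (hp : 0 < p) (hp1 : p ≤ 1) {D : M → M → ℝ} (hD : ∀ x y, 0 ≤ D x y)
    (hs : ∀ x y, D x y = D y x) (ht : ∀ x y z, D x z ≤ D x y + D y z) (G : Finset M)
    (c : M × M →₀ ℝ) (hc : ¬ Red p D c) (hG : ∀ z, z ∉ G → bd c z = 0) :
    c.support.card ≤ 3 * G.card := by
  classical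
  set P : Finset M := c.support.image Prod.fst ∪ c.support.image Prod.snd with hP
  have hli : LinearIndepOn ℝ ev (c.support : Set (M × M)) := by
    rw [linearIndepOn_iff]
    intro l hl hb
    by_contra h0
    exact hc (red_dep hp hp1 hD c l (by exact_mod_cast (mem_supported ℝ l).mp hl) hb h0)
  have h1 : c.support.card ≤ P.card := by
    have := linearIndependent_le_span_aux' _ hli
      ((P.image (fun x => (single x 1 : M →₀ ℝ)) : Finset (M →₀ ℝ)) : Set (M →₀ ℝ)) (by
        rintro _ ⟨e, rfl⟩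
        refine Submodule.sub_mem _ (Submodule.subset_span ?_) (Submodule.subset_span ?_)
        · exact Finset.mem_coe.mpr (Finset.mem_image_of_mem _
            (Finset.mem_union_left _ (Finset.mem_image_of_mem _ e.2)))
        · exact Finset.mem_coe.mpr (Finset.mem_image_of_mem _
            (Finset.mem_union_right _ (Finset.mem_image_of_mem _ e.2))))
    simp only [Finset.coe_sort_coe, Fintype.card_coe] at this
    exact this.trans Finset.card_image_le
  have h2 : (P \ G).card * 3 ≤ c.support.card * 2 := by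
    refine Finset.card_mul_le_card_mul (fun v e => e.1 = v ∨ e.2 = v) (fun v hv => ?_)
      (fun e _ => ?_)
    · obtain ⟨v1, v2⟩ := Finset.mem_sdiff.mp hv
      have := deg3 hp hp1 hD hs ht c hc v (hG v v2) (by
        rcases Finset.mem_union.mp v1 with h | h
        · obtain ⟨e, he, rfl⟩ := Finset.mem_image.mp h
          exact ⟨e, Finset.mem_filter.mpr ⟨he, Or.inl rfl⟩⟩
        · obtain ⟨e, he, rfl⟩ := Finset.mem_image.mp h
          exact ⟨e, Finset.mem_filter.mpr ⟨he, Or.inr rfl⟩⟩)
      convert this using 2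
      ext e; simp [Finset.bipartiteAbove]
    · refine le_trans (Finset.card_le_card (t := {e.1, e.2}) ?_) Finset.card_le_two
      intro v hv
      have := (Finset.mem_filter.mp hv).2
      simp only [Finset.mem_insert, Finset.mem_singleton]
      tauto
  have h3 := Finset.le_card_sdiff G P
  omega

lemma reduce (hp : 0 < p) (hp1 : p ≤ 1) {D : M → M → ℝ} (hD : ∀ x y, 0 ≤ D x y)
    (hs : ∀ x y, D x y = D y x) (ht : ∀ x y z, D x z ≤ D x y + D y z) (G : Finset M) (n : ℕ) :
    ∀ c : M × M →₀ ℝ, c.support.card = n → (∀ z, z ∉ G → bd c z = 0) →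
      ∃ c', bd c' = bd c ∧ cost p D c' ≤ cost p D c ∧ c'.support.card ≤ 3 * G.card := by
  induction n using Nat.strong_induction_on with
  | _ n ih =>
    intro c hn hG
    by_cases hc : Red p D c
    · obtain ⟨c1, a1, a2, a3⟩ := hc
      obtain ⟨c2, b1, b2, b3⟩ := ih _ (hn ▸ a3) c1 rfl (by rwa [a1])
      exact ⟨c2, b1.trans a1, b2.trans a2, b3⟩
    · exact ⟨c, rfl, le_rfl, card_le_of_not_red hp hp1 hD hs ht G c hc hG⟩

end Pool.Agent.H.MP_a71740_an
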