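import Pool.Agent.H.MP_a71740_an.K
set_option autoImplicit false

namespace Pool.Agent.H.MP_a71740_an
open Set Metric Filter Topology Finsupp
open Pool.Agent.H.MP_1a7c10_an
open Pool.Agent.H.MP_259edd_an (clamp clamp_lip clamp_nonneg clamp_le_one clamp_abs clamp_one
  clamp_zero Good)

universe u

variable {p : ℝ} {M : Type u} [MetricSpace M] {o : M} {nr : (M →₀ ℝ) → ℝ}

lemma contract {τ : ℝ} (hτ : 0 ≤ τ) (S : Finset (M × M)) (hS : ∀ e ∈ S, dist e.1 e.2 ≤ τ) :
    ∃ f : M → M, (∀ e ∈ S, f e.1 = f e.2) ∧ ∀ z, dist z (f z) ≤ 4 ^ S.card * τ := by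
  classical
  induction S using Finset.induction_on with
  | empty => exact ⟨id, by simp, fun z => by simpa using hτ⟩
  | insert a S ha ih =>
    obtain ⟨f, h1, h2⟩ := ih (fun e he => hS e (Finset.mem_insert_of_mem he))
    refine ⟨fun z => if f z = f a.2 then f a.1 else f z, ?_, fun z => ?_⟩
    · intro e he
      rcases Finset.mem_insert.mp he with rfl | he
      · simp
      · simp only [h1 e he]
    · rw [Finset.card_insert_of_notMem ha, pow_succ]
      have b1 : (1:ℝ) ≤ 4 ^ S.card := one_le_pow₀ (by norm_num)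
      have b2 : τ ≤ 4 ^ S.card * τ := by nlinarith
      have a1 := h2 z
      simp only
      split_ifs with h
      · have a2 := h2 a.2
        have a3 := h2 a.1
        have a4 := hS a (Finset.mem_insert_self _ _)
        have t1 := dist_triangle4 z (f z) a.2 a.1
        have t2 := dist_triangle z a.1 (f a.1)
        rw [h, dist_comm (f a.2) a.2, dist_comm a.2 a.1, ← h] at t1
        rw [← h] at a2
        linarith
      · linarith

noncomputable def DD (p r : ℝ) (x y : M) : ℝ := min (dist x y ^ p) (r ^ (p - 1) * dist x y)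

lemma DD_nonneg {r : ℝ} (hr : 0 < r) (x y : M) : 0 ≤ DD p r x y :=
  le_min (by positivity) (by positivity)

lemma DD_symm (r : ℝ) (x y : M) : DD p r x y = DD p r y x := by rw [DD, DD, dist_comm]

lemma DD_big (hp1 : p ≤ 1) {r : ℝ} (hr : 0 < r) {x y : M} (h : r ≤ dist x y) :
    DD p r x y = dist x y ^ p := by
  refine min_eq_left ?_
  have d0 : 0 < dist x y := lt_of_lt_of_le hr h
  have e : dist x y ^ p = dist x y ^ (p - 1) * dist x y := by
    rw [← Real.rpow_add_one d0.ne']; ring_nf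
  rw [e]
  exact mul_le_mul_of_nonneg_right (Real.rpow_le_rpow_of_nonpos hr h (by linarith)) d0.le

lemma om_sub (hp : 0 < p) (hp1 : p ≤ 1) {k a b c : ℝ} (hk : 0 ≤ k) (ha : 0 ≤ a) (hb : 0 ≤ b)
    (hc : 0 ≤ c) (h : c ≤ a + b) :
    min (c ^ p) (k * c) ≤ min (a ^ p) (k * a) + min (b ^ p) (k * b) := by
  have m1 : min (c ^ p) (k * c) ≤ min ((a + b) ^ p) (k * (a + b)) :=
    min_le_min (Real.rpow_le_rpow hc h hp.le) (mul_le_mul_of_nonneg_left h hk)
  refine m1.trans ?_
  rcases (add_nonneg ha hb).eq_or_lt with h0 | h0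
  · rw [← h0, mul_zero]
    refine (min_le_right _ _).trans (add_nonneg (le_min ?_ ?_) (le_min ?_ ?_)) <;> positivity
  have key : ∀ x, 0 ≤ x → x ≤ a + b →
      x / (a + b) * min ((a + b) ^ p) (k * (a + b)) ≤ min (x ^ p) (k * x) := by
    intro x hx hx'
    have t0 : 0 ≤ x / (a + b) := by positivity
    have t1 : x / (a + b) ≤ 1 := by rw [div_le_one h0]; exact hx'
    refine le_min ?_ ?_
    · refine (mul_le_mul_of_nonneg_left (min_le_left _ _) t0).trans ?_
      have e : x ^ p = (x / (a + b)) ^ p * (a + b) ^ p := by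
        rw [← Real.mul_rpow t0 h0.le, div_mul_cancel₀ _ h0.ne']
      rw [e]
      refine mul_le_mul_of_nonneg_right ?_ (by positivity)
      exact Real.self_le_rpow_of_le_one t0 t1 hp1
    · refine (mul_le_mul_of_nonneg_left (min_le_right _ _) t0).trans (le_of_eq ?_)
      field_simp
  have k1 := key a ha (by linarith)
  have k2 := key b hb (by linarith)
  have e : min ((a + b) ^ p) (k * (a + b)) = a / (a + b) * min ((a + b) ^ p) (k * (a + b))
      + b / (a + b) * min ((a + b) ^ p) (k * (a + b)) := by field_simp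
  linarith

lemma DD_tri (hp : 0 < p) (hp1 : p ≤ 1) {r : ℝ} (hr : 0 < r) (x y z : M) :
    DD p r x z ≤ DD p r x y + DD p r y z :=
  om_sub hp hp1 (by positivity) dist_nonneg dist_nonneg dist_nonneg (dist_triangle _ _ _)

lemma exists_sep (G : Finset M) {ρ : ℝ} (hρ : 0 < ρ) :
    ∃ σ > 0, σ ≤ ρ ∧ ∀ g ∈ G, ∀ g' ∈ G, g ≠ g' → σ ≤ dist g g' := by
  have : ∀ᶠ σ in 𝓝[>] (0:ℝ), σ ≤ ρ ∧ ∀ g ∈ G, ∀ g' ∈ G, g ≠ g' → σ ≤ dist g g' := by
    refine Eventually.and (by filter_upwards [Ioo_mem_nhdsGT hρ] with σ h using h.2.le) ?_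
    rw [Filter.eventually_all_finset]
    intro g _
    rw [Filter.eventually_all_finset]
    intro g' _
    by_cases h : g = g'
    · exact Eventually.of_forall (fun _ h' => absurd h h')
    · filter_upwards [Ioo_mem_nhdsGT (dist_pos.mpr h)] with σ hσ _ using hσ.2.le
  obtain ⟨σ, h1, h2⟩ := (this.and self_mem_nhdsWithin).exists
  exact ⟨σ, h2, h1⟩

lemma key_lemma (H : Fr ℝ p o nr) (hp1 : p ≤ 1) (G : Finset M) {ρ : ℝ} (hρ : 0 < ρ) :
    ∃ r > 0, r ≤ ρ ∧ ∀ c : M × M →₀ ℝ, (∀ z, z ∉ G → bd c z = 0) →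
      nr (bd c) ≤ 2 ^ p * cost p (DD p r) c := by
  classical
  have hp := H.sn.hp
  obtain ⟨σ0, σpos, σρ, hσ⟩ := exists_sep G hρ
  set m := 3 * G.card with hm
  set θ : ℝ := 1 / (8 * 4 ^ m) with hθ
  have b1 : (1:ℝ) ≤ 4 ^ m := one_le_pow₀ (by norm_num)
  have θ0 : 0 < θ := by positivity
  have θ1 : θ ≤ 1 := by rw [hθ, div_le_one (by positivity)]; linarith
  let σ : ℕ → ℝ := fun i => σ0 * θ ^ i
  have σp : ∀ i, 0 < σ i := fun i => by positivity
  have σa : Antitone σ := fun i j hij =>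
    mul_le_mul_of_nonneg_left (pow_le_pow_of_le_one θ0.le θ1 hij) σpos.le
  have σ00 : σ 0 = σ0 := by simp [σ]
  refine ⟨σ (m + 1), σp _, (σa (Nat.zero_le _)).trans (σ00 ▸ σρ), fun c0 hG0 => ?_⟩
  obtain ⟨c, e1, e2, e3⟩ := reduce hp hp1 (DD_nonneg (p := p) (σp (m + 1))) (DD_symm _)
    (DD_tri hp hp1 (σp _)) G _ c0 rfl hG0
  refine le_trans ?_ (mul_le_mul_of_nonneg_left e2 (by positivity))
  rw [← e1] at hG0 ⊢
  obtain ⟨i, hi, hw⟩ : ∃ i ≤ m, ∀ e ∈ c.support, dist e.1 e.2 ≤ σ (i + 1) ∨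
      σ i < dist e.1 e.2 := by
    by_contra hcon
    push Not at hcon
    haveI : Nonempty (M × M) := ⟨(o, o)⟩
    choose! f hf1 hf2 hf3 using hcon
    have := Finset.card_le_card_of_injOn (s := Finset.range (m + 1)) (t := c.support) f
      (fun i hi => hf1 i (Nat.lt_succ_iff.mp (Finset.mem_range.mp hi))) (by
        intro i hi j hj hij
        have hi' := Nat.lt_succ_iff.mp (Finset.mem_range.mp hi)
        have hj' := Nat.lt_succ_iff.mp (Finset.mem_range.mp hj)
        have a1 := hf2 i hi'; have a2 := hf3 i hi'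
        have a3 := hf2 j hj'; have a4 := hf3 j hj'
        rw [hij] at a1 a2
        rcases lt_trichotomy i j with h | h | h
        · have : σ j ≤ σ (i + 1) := σa (Nat.succ_le_of_lt h)
          linarith
        · exact h
        · have : σ i ≤ σ (j + 1) := σa (Nat.succ_le_of_lt h)
          linarith)
    rw [Finset.card_range] at this
    omega
  obtain ⟨f, f1, f2⟩ := contract (σp (i + 1)).le
    (c.support.filter (fun e => dist e.1 e.2 ≤ σ (i + 1))) (fun e he => (Finset.mem_filter.mp he).2)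
  have f3 : ∀ z, dist z (f z) ≤ σ i / 8 := by
    intro z
    refine (f2 z).trans ?_
    have a1 : (4:ℝ) ^ (c.support.filter (fun e => dist e.1 e.2 ≤ σ (i + 1))).card ≤ 4 ^ m :=
      pow_le_pow_right₀ (by norm_num) ((Finset.card_filter_le _ _).trans e3)
    refine (mul_le_mul_of_nonneg_right a1 (σp _).le).trans (le_of_eq ?_)
    simp only [σ, pow_succ, hθ]
    field_simp
  let g : M → M := fun w => if h : ∃ a ∈ G, f a = w then h.choose else w
  have g1 : ∀ z, dist z (g (f z)) ≤ σ i / 4 := by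
    intro z
    simp only [g]
    split_ifs with h
    · have a1 := h.choose_spec.2
      have a2 := f3 h.choose
      have a3 := dist_triangle z (f z) h.choose
      rw [a1, dist_comm] at a2
      have := f3 z
      linarith
    · have := f3 z; have := σp i; linarith
  have g2 : ∀ z ∈ G, g (f z) = z := by
    intro z hz
    have h : ∃ a ∈ G, f a = f z := ⟨z, hz, rfl⟩
    have a1 := g1 z
    have e : g (f z) = h.choose := by simp only [g]; rw [dif_pos h]
    rw [e] at a1 ⊢
    by_contra hne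
    have a2 := hσ z hz _ h.choose_spec.1 (Ne.symm hne)
    have a3 := σa (Nat.zero_le i)
    have := σp i
    linarith
  let Φ : (M →₀ ℝ) →ₗ[ℝ] (M →₀ ℝ) := linearCombination ℝ (fun z => single (g (f z)) 1)
  have Φ1 : Φ (bd c) = bd c := by
    conv_rhs => rw [← sum_single (bd c)]
    rw [linearCombination_apply]
    refine Finsupp.sum_congr (fun z hz => ?_)
    have : z ∈ G := by
      by_contra h
      exact mem_support_iff.mp hz (hG0 z h)
    rw [g2 z this, smul_single, smul_eq_mul, mul_one]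
  rw [← Φ1, bd_eq, map_sum, cost, Finset.mul_sum]
  refine (H.sn.sum _ _).trans (Finset.sum_le_sum (fun e he => ?_))
  rw [map_smul, H.sn.smul, Real.norm_eq_abs, ev, map_sub, mul_left_comm]
  refine mul_le_mul_of_nonneg_left ?_ (by positivity)
  simp only [Φ, linearCombination_single, one_smul]
  rcases hw e he with h | h
  · rw [f1 e (Finset.mem_filter.mpr ⟨he, h⟩), sub_self, H.sn.zero]
    exact mul_nonneg (by positivity) (DD_nonneg (σp _) _ _)
  · rw [DD_big hp1 (σp _) ((σa (by omega)).trans h.le), ← Real.mul_rpow (by norm_num) dist_nonneg]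
    refine (H.iso _ _).trans (Real.rpow_le_rpow dist_nonneg ?_ hp.le)
    have t := dist_triangle4 (g (f e.1)) e.1 e.2 (g (f e.2))
    have a1 := g1 e.1
    have a2 := g1 e.2
    rw [dist_comm] at a1
    have := σp i
    linarith

lemma SN_inf {E E' : Type*} [AddCommGroup E] [Module ℝ E] [AddCommGroup E'] [Module ℝ E']
    {co : E' → ℝ} (h : SN ℝ p co) (R : E' → E → Prop) (h0 : ∀ c, ∃ k, R k c)
    (h1 : ∀ k c k' c', R k c → R k' c' → R (k + k') (c + c'))
    (h2 : ∀ (t : ℝ) k c, R k c → R (t • k) (t • c)) :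
    ∃ q : E → ℝ, SN ℝ p q ∧ (∀ k c, R k c → q c ≤ co k) ∧
      ∀ c a, (∀ k, R k c → a ≤ co k) → a ≤ q c := by
  let q : E → ℝ := fun c => sInf {t | ∃ k, R k c ∧ t = co k}
  have q1 : ∀ k c, R k c → q c ≤ co k := fun k c hk =>
    csInf_le ⟨0, by rintro _ ⟨k, _, rfl⟩; exact h.nonneg k⟩ ⟨k, hk, rfl⟩
  have q2 : ∀ c a, (∀ k, R k c → a ≤ co k) → a ≤ q c := fun c a ha => by
    obtain ⟨k, hk⟩ := h0 c
    exact le_csInf ⟨_, k, hk, rfl⟩ (by rintro _ ⟨k, hk, rfl⟩; exact ha k hk)
  have hp := h.hp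
  have q3 : ∀ (t : ℝ) c, t ≠ 0 → q (t • c) ≤ ‖t‖ ^ p * q c := by
    intro t c ht
    have t0 : 0 < ‖t‖ ^ p := Real.rpow_pos_of_pos (norm_pos_iff.mpr ht) _
    rw [← div_le_iff₀' t0]
    refine q2 c _ (fun k hk => ?_)
    rw [div_le_iff₀' t0, ← h.smul]
    exact q1 _ _ (h2 t k c hk)
  refine ⟨q, ⟨hp, fun c c' => ?_, fun t c => ?_⟩, q1, q2⟩
  · rw [← sub_le_iff_le_add]
    refine q2 c _ (fun k hk => ?_)
    rw [sub_le_comm]
    refine q2 c' _ (fun k' hk' => ?_)
    have := q1 _ _ (h1 k c k' c' hk hk')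
    have := h.add k k'
    linarith
  · rcases eq_or_ne t 0 with rfl | ht
    · obtain ⟨k, hk⟩ := h0 c
      have a1 := q1 _ _ (h2 0 k c hk)
      have a2 := q2 ((0:ℝ) • c) 0 (fun k _ => h.nonneg k)
      rw [zero_smul ℝ k, h.zero] at a1
      rw [norm_zero, Real.zero_rpow hp.ne', zero_mul]
      exact le_antisymm a1 a2
    · refine le_antisymm (q3 t c ht) ?_
      have a1 := q3 t⁻¹ (t • c) (inv_ne_zero ht)
      rw [smul_smul, inv_mul_cancel₀ ht, one_smul, norm_inv, Real.inv_rpow (norm_nonneg _)] at a1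
      have t0 : 0 < ‖t‖ ^ p := Real.rpow_pos_of_pos (norm_pos_iff.mpr ht) _
      calc ‖t‖ ^ p * q c ≤ ‖t‖ ^ p * ((‖t‖ ^ p)⁻¹ * q (t • c)) :=
            mul_le_mul_of_nonneg_left a1 t0.le
        _ = q (t • c) := by field_simp

/-- the fine-scale quotient seminorm -/
lemma exists_q (H : Fr ℝ p o nr) (hp1 : p ≤ 1) (N : Finset M) (hN : o ∈ N) (v : M →₀ ℝ)
    {ρ s : ℝ} (hρ : 0 < ρ) (hv : ∀ w : M →₀ ℝ, (∀ z, z ∉ N → w z = 0) → s ≤ nr (v - w)) :
    ∃ r > 0, r ≤ ρ ∧ ∃ q : (M →₀ ℝ) → ℝ, SN ℝ p q ∧ (∀ e ∈ N, q (single e 1) = 0) ∧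
      (∀ x y, q (single x 1 - single y 1) ≤ DD p r x y) ∧ s / 2 ^ p ≤ q v := by
  classical
  have hp := H.sn.hp
  obtain ⟨r, r0, rρ, hr⟩ := key_lemma H hp1 (v.support ∪ N) hρ
  obtain ⟨q, q0, q1, q2⟩ := SN_inf (cost_sn hp hp1 (DD_nonneg (p := p) (M := M) r0))
    (fun k (c : M →₀ ℝ) => ∀ z, z ∉ N → bd k z = c z) (fun c => by
      induction c using Finsupp.induction_linear with
      | zero => exact ⟨0, by simp⟩
      | add a b ha hb =>
        obtain ⟨k, hk⟩ := ha
        obtain ⟨k', hk'⟩ := hb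
        exact ⟨k + k', fun z hz => by simp [hk z hz, hk' z hz]⟩
      | single x t =>
        refine ⟨single (x, o) t, fun z hz => ?_⟩
        have : o ≠ z := fun h => hz (h ▸ hN)
        rw [bd_single, ev]
        simp [single_eq_of_ne' this, single_apply])
    (fun k c k' c' a b z hz => by simp [a z hz, b z hz])
    (fun t k c a z hz => by simp [a z hz])
  refine ⟨r, r0, rρ, q, q0, fun e he => ?_, fun x y => ?_, q2 _ _ (fun k hk => ?_)⟩
  · refine le_antisymm ?_ (q0.nonneg _)
    have := q1 0 (single e 1) (fun z hz => by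
      have : e ≠ z := fun h => hz (h ▸ he)
      simp [single_eq_of_ne' this])
    simpa [cost] using this
  · have := q1 (single (x, y) 1) (single x 1 - single y 1) (fun z _ => by
      rw [bd_single, one_smul, ev])
    rw [cost_single hp] at this
    simpa using this
  · rw [div_le_iff₀' (by positivity)]
    refine le_trans ?_ (hr k (fun z hz => ?_))
    · have := hv (v - bd k) (fun z hz => by rw [Finsupp.sub_apply, hk z hz, sub_self])
      rwa [sub_sub_cancel] at this
    · rw [Finset.mem_union, not_or] at hz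
      rw [hk z hz.2, notMem_support_iff.mp hz.1]

lemma far (H : Fr ℝ p o nr) (N : Finset M) {B η : ℝ} (hη : 0 < η) (v : ℕ → M →₀ ℝ)
    (hv : ∀ k z, z ∉ N → v k z = 0) (hB : ∀ k, nr (v k) ≤ B) :
    ∃ k l, k ≠ l ∧ nr (v k - v l) < η := by
  classical
  have hp := H.sn.hp
  obtain ⟨r, r0, -, hr⟩ := exists_sep N one_pos
  let u : ℕ → N → ℝ := fun k z => if nr (single z.1 1) = 0 then 0 else v k z
  have hb : ∀ z : N, ∃ C : ℝ, ∀ k, |u k z| ≤ C := by
    intro z
    by_cases h0 : nr (single z.1 1) = 0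
    · exact ⟨0, fun k => by simp [u, h0]⟩
    have h1 : 0 < nr (single z.1 1) := lt_of_le_of_ne (H.sn.nonneg _) (Ne.symm h0)
    have G : Good o (fun x => clamp (1 - dist x z.1 / r)) (1 / r) 1 (dist z.1 o + r) :=
      ⟨by positivity, zero_le_one, by positivity, fun x y => by
        refine (clamp_lip _ _).trans ?_
        have e : 1 - dist x z.1 / r - (1 - dist y z.1 / r)
          = (1 / r) * (dist y z.1 - dist x z.1) := by ring
        rw [e, abs_mul, abs_of_pos (by positivity : (0:ℝ) < 1 / r)]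
        refine mul_le_mul_of_nonneg_left ?_ (by positivity)
        rw [dist_comm x y]; exact abs_dist_sub_le _ _ _, fun x => clamp_abs _, fun x hx =>
        clamp_zero (by
          have := dist_triangle x z.1 o
          have : 1 ≤ dist x z.1 / r := by rw [le_div_iff₀ r0]; linarith
          linarith)⟩
    set C := (1 / r * (dist z.1 o + r)) ^ p + 1 ^ p with hC
    have C0 : 0 ≤ C := by positivity
    refine ⟨(C * B / nr (single z.1 1)) ^ (1 / p), fun k => ?_⟩
    have a1 := H.W_le G (v k)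
    have e : W ℝ (fun x => clamp (1 - dist x z.1 / r)) (v k) = v k z • single z.1 1 := by
      ext x
      rw [W_apply, Finsupp.smul_apply, smul_eq_mul]
      by_cases hx : x = z.1
      · subst hx; simp [clamp_one]
      · rw [single_eq_of_ne hx, mul_zero]
        by_cases hxN : x ∈ N
        · rw [clamp_zero]
          · simp
          · have := hr x hxN z.1 z.2 hx
            have : 1 ≤ dist x z.1 / r := by rw [le_div_iff₀ r0]; linarith
            linarith
        · rw [hv k x hxN, mul_zero]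
    rw [e, H.sn.smul, Real.norm_eq_abs] at a1
    have a2 : |v k z| ^ p ≤ C * B / nr (single z.1 1) := by
      rw [le_div_iff₀ h1]
      exact a1.trans (mul_le_mul_of_nonneg_left (hB k) C0)
    have a3 := Real.rpow_le_rpow (by positivity) a2 (by positivity : 0 ≤ 1 / p)
    rw [inv2 hp (abs_nonneg _)] at a3
    simpa [u, h0] using a3
  choose C hC using hb
  obtain ⟨a, -, φ, hφ, ht⟩ := (isCompact_univ_pi (fun z : N => isCompact_Icc (a := -C z)
    (b := C z))).tendsto_subseq (x := u) (fun k z _ => abs_le.mp (hC z k))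
  have ht' := ht.comp (tendsto_add_atTop_nat 1)
  have hc : Continuous (fun w : (N → ℝ) × (N → ℝ) =>
      ∑ z : N, |w.1 z - w.2 z| ^ p * nr (single z.1 1)) := by
    refine continuous_finset_sum _ (fun z _ => Continuous.mul ?_ continuous_const)
    exact (Real.continuous_rpow_const hp.le).comp (by fun_prop)
  have h2 := (hc.tendsto (a, a)).comp (ht.prodMk_nhds ht')
  simp only [sub_self, abs_zero, Real.zero_rpow hp.ne', zero_mul, Finset.sum_const_zero] at h2
  obtain ⟨k, hk⟩ := (h2.eventually (gt_mem_nhds hη)).exists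
  refine ⟨φ k, φ (k + 1), (hφ (Nat.lt_succ_self k)).ne, lt_of_le_of_lt ?_ hk⟩
  have e : v (φ k) - v (φ (k + 1)) = ∑ z : N, (v (φ k) z - v (φ (k + 1)) z) • single z.1 1 := by
    ext x
    rw [Finsupp.finset_sum_apply, Finsupp.sub_apply]
    by_cases hx : x ∈ N
    · rw [Finset.sum_eq_single ⟨x, hx⟩]
      · simp
      · intro z _ hz
        have : z.1 ≠ x := fun h => hz (Subtype.ext h)
        simp [single_eq_of_ne' this]
      · simp
    · rw [hv _ x hx, hv _ x hx, sub_self]
      refine (Finset.sum_eq_zero (fun z _ => ?_)).symm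
      have : z.1 ≠ x := fun h => hx (h ▸ z.2)
      simp [single_eq_of_ne' this]
  rw [e]
  refine (H.sn.sum _ _).trans (Finset.sum_le_sum (fun z _ => ?_))
  rw [H.sn.smul, Real.norm_eq_abs]
  by_cases h0 : nr (single z.1 1) = 0
  · simp [h0]
  · simp [u, h0]

end Pool.Agent.H.MP_a71740_an
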