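import Pool.Agent.H.MP_a71740_an.L
set_option autoImplicit false

namespace Pool.Agent.H.MP_a71740_an
open Set Metric Filter Topology Finsupp
open Pool.Agent.H.MP_1a7c10_an
open Pool.Agent.H.MP_259edd_an (clamp clamp_lip clamp_nonneg clamp_le_one clamp_abs clamp_one
  clamp_zero Good)

universe u

variable {p : ℝ} {M : Type u} [MetricSpace M] {o : M} {nr : (M →₀ ℝ) → ℝ}

lemma dc {α : Type*} (P : ℕ → α → Prop) (S : ℕ → α → α → Prop) (h0 : ∃ a, P 0 a)
    (hs : ∀ n a, P n a → ∃ b, P (n + 1) b ∧ S n a b) :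
    ∃ f : ℕ → α, (∀ n, P n (f n)) ∧ ∀ n, S n (f n) (f (n + 1)) := by
  obtain ⟨a0, h0⟩ := h0
  choose g hg1 hg2 using hs
  let f : (n : ℕ) → {a // P n a} := fun n =>
    Nat.rec (motive := fun n => {a // P n a}) ⟨a0, h0⟩ (fun n a => ⟨g n a.1 a.2, hg1 n a.1 a.2⟩) n
  exact ⟨fun n => (f n).1, fun n => (f n).2, fun n => hg2 n _ (f n).2⟩

structure Tight (o : M) (nr : (M →₀ ℝ) → ℝ) (Rel : ℕ → (M →₀ ℝ) → Prop) (ε : ℝ)
    (K : ℕ → Set M) : Prop where
  anti : Antitone K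
  base : ∀ k, o ∈ K k
  net : ∀ ρ > 0, ∃ j, ∃ N : Finset M, o ∈ N ∧ ∀ x ∈ K j, ∃ e ∈ N, dist x e ≤ ρ
  app : ∀ k, ∃ n, ∀ c, Rel n c → ∃ c' : M →₀ ℝ, (∀ x ∈ c'.support, x ∈ K k) ∧ nr (c - c') ≤ ε

lemma reduction (H : Fr ℝ p o nr) (Rel : ℕ → (M →₀ ℝ) → Prop)
    (mono : ∀ n m c, n ≤ m → Rel m c → Rel n c) {B : ℝ} (hB : ∀ n c, Rel n c → nr c ≤ B)
    (hno : ¬ ∃ c : ℕ → M →₀ ℝ, (∀ n, Rel n (c n)) ∧ HasLp ℝ p nr c) {ε : ℝ} (hε : 0 < ε) :
    ∃ K, Tight o nr Rel ε K := by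
  classical
  obtain ⟨n0, R, R0, hA⟩ : ∃ (n : ℕ) (R : ℝ), 0 < R ∧
      ∀ c, Rel n c → nr (c - W ℝ (hR o R) c) < ε / 2 := by
    by_contra h
    push Not at h
    exact hno (H.tight_core Rel (s := ε / 2) (by positivity) hB h)
  have hBk : ∀ (h : M → ℝ) (K : ℝ), Good o h K 1 (2 * R) → ∀ r > 0, ∀ η > 0,
      ∃ (n : ℕ) (E : Finset M), ∀ c, Rel n c → nr (W ℝ (fun x => h x * aE o r E x) c) < η := by
    intro h K G r hr η hη
    by_contra hc
    push Not at hc
    exact hno (H.kalton_core Rel hη hr G hB hc)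
  obtain ⟨h, h1, h2⟩ := dc (α := M → ℝ)
    (fun k h => (∃ K, Good o h K 1 (2 * R)) ∧
      ∃ n, ∀ c, Rel n c → nr (c - W ℝ h c) ≤ ε - ε / 2 ^ (k + 1))
    (fun k h h' => ∃ E : Finset M, ∀ x, h' x ≠ 0 → h x ≠ 0 ∧ rho o E x < 2 * (1 / ((k:ℝ) + 1)))
    ⟨hR o R, ⟨_, hR_good o R0⟩, n0, fun c hc => (hA c hc).le.trans (by norm_num; linarith)⟩
    (by
      rintro k h ⟨⟨K, G⟩, n, hn⟩
      have r0 : 0 < 1 / ((k:ℝ) + 1) := by positivity
      obtain ⟨n', E, hE⟩ := hBk h K G _ r0 (ε / 2 ^ (k + 2)) (by positivity)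
      refine ⟨fun x => h x * (1 - aE o (1 / ((k:ℝ) + 1)) E x), ⟨⟨_, G.mul (K' := 1 / (1 / ((k:ℝ) + 1)))
        (by positivity) (fun x y => ?_) (fun x => ?_)⟩, max n n', fun c hc => ?_⟩, E, fun x hx => ?_⟩
      · have := aE_lip o r0 E x y
        rwa [show 1 - aE o (1 / ((k:ℝ) + 1)) E x - (1 - aE o (1 / ((k:ℝ) + 1)) E y)
          = -(aE o (1 / ((k:ℝ) + 1)) E x - aE o (1 / ((k:ℝ) + 1)) E y) by ring, abs_neg]
      · have a1 : 0 ≤ aE o (1 / ((k:ℝ) + 1)) E x := clamp_nonneg _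
        have a2 : aE o (1 / ((k:ℝ) + 1)) E x ≤ 1 := clamp_le_one _
        rw [abs_le]; constructor <;> linarith
      · have a1 := hn c (mono _ _ _ (le_max_left _ _) hc)
        have a2 := hE c (mono _ _ _ (le_max_right _ _) hc)
        have e : c - W ℝ (fun x => h x * (1 - aE o (1 / ((k:ℝ) + 1)) E x)) c
            = (c - W ℝ h c) + W ℝ (fun x => h x * aE o (1 / ((k:ℝ) + 1)) E x) c := by
          ext x
          simp only [Finsupp.sub_apply, Finsupp.add_apply, W_apply, RCLike.ofReal_real_eq_id, id]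
          ring
        rw [e]
        refine (H.sn.add _ _).trans ?_
        have e2 : ε / 2 ^ (k + 1) = 2 * (ε / 2 ^ (k + 1 + 1)) := by field_simp; ring
        linarith
      · refine ⟨left_ne_zero_of_mul hx, ?_⟩
        by_contra hlt
        apply hx
        simp only
        rw [aE_one o r0 (not_lt.mp hlt), sub_self, mul_zero])
  refine ⟨fun k => insert o {x | h k x ≠ 0}, antitone_nat_of_succ_le (fun k => ?_),
    fun k => mem_insert _ _, fun ρ hρ => ?_, fun k => ?_⟩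
  · obtain ⟨E, hE⟩ := h2 k
    exact insert_subset_insert (fun x hx => (hE x hx).1)
  · obtain ⟨k, hk⟩ := exists_nat_one_div_lt (K := ℝ) (ε := ρ / 2) (by positivity)
    obtain ⟨E, hE⟩ := h2 k
    refine ⟨k + 1, insert o E, Finset.mem_insert_self _ _, ?_⟩
    rintro x (rfl | hx)
    · exact ⟨x, Finset.mem_insert_self _ _, by simpa using hρ.le⟩
    · obtain ⟨e, he, hd⟩ := (infDist_lt_iff (insert_nonempty _ _)).mp (hE x hx).2
      exact ⟨e, by simpa using he, by linarith⟩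
  · obtain ⟨-, n, hn⟩ := h1 k
    refine ⟨n, fun c hc => ⟨W ℝ (h k) c, fun x hx => Or.inr ?_, (hn c hc).trans ?_⟩⟩
    · have := mem_support_iff.mp hx
      rw [W_apply] at this
      exact left_ne_zero_of_mul this
    · have : 0 < ε / 2 ^ (k + 1) := by positivity
      linarith

structure Stage (p : ℝ) (o : M) (K : Set M) (ρ r : ℝ) (q : (M →₀ ℝ) → ℝ) : Prop where
  sn : SN ℝ p q
  base : q (single o 1) = 0
  b1 : ∀ x y, q (single x 1 - single y 1) ≤ (1 + 3 ^ p) * dist x y ^ p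
  b2 : ∀ x y, q (single x 1 - single y 1) ≤ 2 * 3 ^ p * ρ ^ p
  b3 : ∀ x y, (infDist x K ≤ ρ ∧ infDist y K ≤ ρ) ∨ (2 * ρ ≤ infDist x K ∧ 2 * ρ ≤ infDist y K) →
    q (single x 1 - single y 1) ≤ r ^ (p - 1) * dist x y

lemma stage0 (H : Fr ℝ p o nr) (hp1 : p ≤ 1) (K : Set M) (hK : o ∈ K) (N : Finset M) (hN : o ∈ N)
    {ρ s : ℝ} (hρ : 0 < ρ) (hnet : ∀ x ∈ K, ∃ e ∈ N, dist x e ≤ ρ) (v : M →₀ ℝ)
    (hvK : ∀ x ∈ v.support, x ∈ K)
    (hv : ∀ w : M →₀ ℝ, (∀ z, z ∉ N → w z = 0) → s ≤ nr (v - w)) :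
    ∃ r > 0, ∃ q, Stage p o K ρ r q ∧ s / 2 ^ p ≤ q v := by
  have hp := H.sn.hp
  obtain ⟨r, r0, -, q, q0, q1, q2, q3⟩ := exists_q H hp1 N hN v hρ hv
  let h : M → ℝ := fun x => clamp (2 - infDist x K / ρ)
  have h1 : ∀ x, infDist x K ≤ ρ → h x = 1 := fun x hx => clamp_one (by
    have : infDist x K / ρ ≤ 1 := by rw [div_le_one hρ]; exact hx
    linarith)
  have h0 : ∀ x, 2 * ρ ≤ infDist x K → h x = 0 := fun x hx => clamp_zero (by
    have : 2 ≤ infDist x K / ρ := by rw [le_div_iff₀ hρ]; exact hx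
    linarith)
  have hl : ∀ x y, |h x - h y| ≤ dist x y / ρ := by
    intro x y
    refine (clamp_lip _ _).trans ?_
    have e : 2 - infDist x K / ρ - (2 - infDist y K / ρ) = (infDist y K - infDist x K) / ρ := by
      ring
    rw [e, abs_div, abs_of_pos hρ]
    refine div_le_div_of_nonneg_right ?_ hρ.le
    have a1 := infDist_le_infDist_add_dist (x := x) (y := y) (s := K)
    have a2 := infDist_le_infDist_add_dist (x := y) (y := x) (s := K)
    rw [dist_comm y x] at a2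
    rw [abs_le]; constructor <;> linarith
  have hb : ∀ x, |h x| ^ p ≤ 1 := fun x => Real.rpow_le_one (abs_nonneg _) (clamp_abs _) hp.le
  have hq : ∀ x, infDist x K < 2 * ρ → q (single x 1) ≤ 3 ^ p * ρ ^ p := by
    intro x hx
    obtain ⟨y, hy, hxy⟩ := (infDist_lt_iff ⟨o, hK⟩).mp hx
    obtain ⟨e, he, hye⟩ := hnet y hy
    have a1 := q0.le_add_sub (single x 1) (single e 1)
    have a2 := (q2 x e).trans (min_le_left _ _)
    have a3 := dist_triangle x y e
    have a4 := Real.rpow_le_rpow dist_nonneg (show dist x e ≤ 3 * ρ by linarith) hp.le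
    rw [Real.mul_rpow (by norm_num) hρ.le] at a4
    rw [q1 e he] at a1
    linarith
  have hq' : ∀ x, q (h x • single x 1) ≤ 3 ^ p * ρ ^ p := by
    intro x
    by_cases hx : infDist x K < 2 * ρ
    · rw [q0.smul, Real.norm_eq_abs]
      have := mul_le_mul (hb x) (hq x hx) (q0.nonneg _) zero_le_one
      linarith
    · rw [h0 x (not_lt.mp hx), zero_smul, q0.zero]; positivity
  have hW : ∀ x y, W ℝ h (single x 1 - single y 1) = h x • single x 1 - h y • single y 1 := by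
    intro x y; rw [map_sub, W_single, W_single]; rfl
  have hsame : ∀ x y, h x = h y → q (W ℝ h (single x 1 - single y 1)) ≤ DD p r x y := by
    intro x y e
    rw [hW, e, ← smul_sub, q0.smul, Real.norm_eq_abs]
    have := mul_le_mul (hb y) (q2 x y) (q0.nonneg _) zero_le_one
    linarith
  have key : ∀ x y, infDist x K ≤ infDist y K →
      q (W ℝ h (single x 1 - single y 1)) ≤ (1 + 3 ^ p) * dist x y ^ p := by
    intro x y hxy
    have d0 : 0 ≤ 3 ^ p * dist x y ^ p := by positivity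
    by_cases hx : infDist x K < 2 * ρ
    · rw [hW]
      refine (q0.diff_le _ _ _ _).trans ?_
      rw [Real.norm_eq_abs, Real.norm_eq_abs]
      have a1 := mul_le_mul (hb y) ((q2 x y).trans (min_le_left _ _)) (q0.nonneg _) zero_le_one
      have a2 := mul_le_mul (Real.rpow_le_rpow (abs_nonneg _) (hl x y) hp.le) (hq x hx)
        (q0.nonneg _) (by positivity)
      have e : (dist x y / ρ) ^ p * (3 ^ p * ρ ^ p) = 3 ^ p * dist x y ^ p := by
        rw [Real.div_rpow dist_nonneg hρ.le]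
        have : 0 < ρ ^ p := by positivity
        field_simp
      linarith
    · have := (hsame x y (by rw [h0 x (not_lt.mp hx), h0 y ((not_lt.mp hx).trans hxy)])).trans
        (min_le_left _ _)
      linarith
  refine ⟨r, r0, fun c => q (W ℝ h c), ⟨q0.comp _, ?_, fun x y => ?_, fun x y => ?_,
    fun x y hxy => ?_⟩, ?_⟩
  · rw [W_single, q0.smul, q1 o hN, mul_zero]
  · rcases le_total (infDist x K) (infDist y K) with h' | h'
    · exact key x y h'
    · rw [← neg_sub, map_neg, q0.neg, dist_comm]; exact key y x h'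
  · rw [hW]
    have := q0.sub (h x • single x 1) (h y • single y 1)
    have := hq' x
    have := hq' y
    linarith
  · refine (hsame x y ?_).trans (min_le_right _ _)
    rcases hxy with h' | h'
    · rw [h1 x h'.1, h1 y h'.2]
    · rw [h0 x h'.1, h0 y h'.2]
  · simp only
    rw [W_one v (fun x hx => h1 x (by rw [infDist_zero_of_mem (hvK x hx)]; exact hρ.le))]
    exact q3

lemma stage (H : Fr ℝ p o nr) (hp1 : p ≤ 1) (Rel : ℕ → (M →₀ ℝ) → Prop)
    (mono : ∀ n m c, n ≤ m → Rel m c → Rel n c) {B s ε : ℝ} (hB : ∀ n c, Rel n c → nr c ≤ B)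
    (hs : 0 < s) (hε : 8 * ε ≤ s)
    (sep : ∀ n, ∃ v : ℕ → M →₀ ℝ, (∀ k, Rel n (v k)) ∧ ∀ k l, k ≠ l → s ≤ nr (v k - v l))
    {K : ℕ → Set M} (T : Tight o nr Rel ε K) (n : ℕ) (ρ : ℝ) (j0 : ℕ) (hρ : 0 < ρ) :
    ∃ (j : ℕ) (r : ℝ) (c c' : M →₀ ℝ) (q : (M →₀ ℝ) → ℝ), j0 ≤ j ∧ 0 < r ∧ Rel n c ∧
      nr (c - c') ≤ ε ∧ Stage p o (K j) ρ r q ∧ s / 4 / 2 ^ p ≤ q c' := by
  obtain ⟨j1, N, hN, hnet⟩ := T.net ρ hρ
  obtain ⟨n', hn'⟩ := T.app (max j0 j1)
  obtain ⟨v, v1, v2⟩ := sep (max n n')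
  choose c' c1 c2 using fun k => hn' (v k) (mono _ _ _ (le_max_right _ _) (v1 k))
  obtain ⟨k, hk⟩ : ∃ k, ∀ w : M →₀ ℝ, (∀ z, z ∉ N → w z = 0) → s / 4 ≤ nr (c' k - w) := by
    by_contra hc
    push Not at hc
    choose w w1 w2 using hc
    obtain ⟨k, l, hkl, hlt⟩ := far H N (B := B + ε + s / 4) (η := s / 4) (by positivity) w w1
      (fun k => by
        have a1 := H.sn.le_add_sub (w k) (c' k)
        have a2 := H.sn.le_add_sub (c' k) (v k)
        rw [H.sn.sub_rev] at a1 a2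
        have := hB _ _ (v1 k)
        have := c2 k
        have := w2 k
        linarith)
    have a1 := H.sn.tri (v k) (c' k) (v l)
    have a2 := H.sn.tri (c' k) (w k) (v l)
    have a3 := H.sn.tri (w k) (w l) (v l)
    have a4 := H.sn.tri (w l) (c' l) (v l)
    rw [H.sn.sub_rev (w l) (c' l), H.sn.sub_rev (c' l) (v l)] at a4
    have := v2 k l hkl
    have := c2 k; have := c2 l; have := w2 k; have := w2 l
    linarith
  obtain ⟨r, r0, q, q1, q2⟩ := stage0 H hp1 (K (max j0 j1)) (T.base _) N hN hρ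
    (fun x hx => hnet x (T.anti (le_max_right _ _) hx)) (c' k) (c1 k) hk
  exact ⟨max j0 j1, r, v k, c' k, q, le_max_left _ _, r0,
    mono _ _ _ (le_max_left _ _) (v1 k), c2 k, q1, q2⟩

lemma geo_sum (σ : ℕ → ℝ) (h0 : ∀ n, 0 ≤ σ n) (h : ∀ n, σ (n + 1) ≤ σ n / 2) (F : Finset ℕ) :
    ∀ A, 0 ≤ A → (∀ n ∈ F, σ n ≤ A) → ∑ n ∈ F, σ n ≤ 2 * A := by
  have anti : Antitone σ := antitone_nat_of_succ_le (fun n => by
    have := h n; have := h0 n; linarith)
  induction F using Finset.induction_on_min with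
  | empty => intro A hA _; simpa using hA
  | insert a s ha ih =>
    intro A _ hA
    rw [Finset.sum_insert (fun h' => lt_irrefl _ (ha a h'))]
    have a1 := ih (σ a / 2) (by have := h0 a; linarith)
      (fun n hn => (anti (Nat.succ_le_of_lt (ha n hn))).trans (h a))
    have := hA a (Finset.mem_insert_self _ _)
    linarith

lemma exists_next (hp : 0 < p) (hp1 : p < 1) (n : ℕ) (ρ r : ℝ) (hρ : 0 < ρ) (hr : 0 < r) :
    ∃ t, 0 < t ∧ t ≤ ρ / 4 ∧ t ^ p ≤ ρ ^ p / 2 ∧ r ^ (p - 1) * t ^ (1 - p) ≤ (1 / 2) ^ n := by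
  have c1 : Tendsto (fun t : ℝ => t ^ p) (𝓝[>] 0) (𝓝 0) := by
    have := ((Real.continuous_rpow_const hp.le).tendsto 0).mono_left
      (nhdsWithin_le_nhds (s := Ioi (0:ℝ)))
    rwa [Real.zero_rpow hp.ne'] at this
  have c2 : Tendsto (fun t : ℝ => r ^ (p - 1) * t ^ (1 - p)) (𝓝[>] 0) (𝓝 0) := by
    have := (((Real.continuous_rpow_const (by linarith : 0 ≤ 1 - p)).tendsto 0).mono_left
      (nhdsWithin_le_nhds (s := Ioi (0:ℝ)))).const_mul (r ^ (p - 1))
    rwa [Real.zero_rpow (by linarith), mul_zero] at this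
  have e1 := c1.eventually (ge_mem_nhds (show 0 < ρ ^ p / 2 by positivity))
  have e2 := c2.eventually (ge_mem_nhds (show (0:ℝ) < (1 / 2) ^ n by positivity))
  obtain ⟨t, ⟨a, b⟩, d⟩ := ((e1.and e2).and (Ioo_mem_nhdsGT (show 0 < ρ / 4 by positivity))).exists
  exact ⟨t, d.1, d.2.le, a, b⟩

theorem core (H : Fr ℝ p o nr) (hp1 : p < 1) (Rel : ℕ → (M →₀ ℝ) → Prop)
    (mono : ∀ n m c, n ≤ m → Rel m c → Rel n c) {B s : ℝ} (hB : ∀ n c, Rel n c → nr c ≤ B)
    (hs : 0 < s)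
    (sep : ∀ n, ∃ v : ℕ → M →₀ ℝ, (∀ k, Rel n (v k)) ∧ ∀ k l, k ≠ l → s ≤ nr (v k - v l)) :
    ∃ c : ℕ → M →₀ ℝ, (∀ n, Rel n (c n)) ∧ HasLp ℝ p nr c := by
  classical
  have hp := H.sn.hp
  by_contra hno
  set C : ℝ := 4 * 3 ^ p + 2 + 2 * (1 + 3 ^ p) with hC
  have p3 : (0:ℝ) < 3 ^ p := by positivity
  have p2 : (1:ℝ) ≤ 2 ^ p := Real.one_le_rpow (by norm_num) hp.le
  have C1 : 1 ≤ C := by rw [hC]; linarith
  set ε := s / (8 * 2 ^ p * C) with hε
  have ε0 : 0 < ε := by positivity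
  have ε1 : 8 * ε ≤ s := by
    have : ε ≤ s / 8 := div_le_div_of_nonneg_left hs.le (by norm_num) (by nlinarith)
    linarith
  obtain ⟨K, T⟩ := reduction H Rel mono hB hno ε0
  choose! j r c c' q s1 s2 s3 s4 s5 s6 using stage H hp1.le Rel mono hB hs ε1 sep T
  choose! nx x1 x2 x3 x4 using exists_next hp hp1
  let st : ℕ → ℝ × ℕ := fun n =>
    Nat.rec (1, 0) (fun n a => (nx n a.1 (r n a.1 a.2), j n a.1 a.2)) n
  let ρ : ℕ → ℝ := fun n => (st n).1
  let J : ℕ → ℕ := fun n => j n (st n).1 (st n).2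
  let rr : ℕ → ℝ := fun n => r n (st n).1 (st n).2
  let Q : ℕ → (M →₀ ℝ) → ℝ := fun n => q n (st n).1 (st n).2
  have ρs : ∀ n, ρ (n + 1) = nx n (ρ n) (rr n) := fun n => rfl
  have ρ0 : ∀ n, 0 < ρ n := by
    intro n
    induction n with
    | zero => exact one_pos
    | succ n ih => rw [ρs]; exact x1 _ _ _ ih (s2 _ _ _ ih)
  have r0 : ∀ n, 0 < rr n := fun n => s2 _ _ _ (ρ0 n)
  have Jm : Monotone J := monotone_nat_of_le_succ (fun n => s1 (n + 1) _ _ (ρ0 (n + 1)))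
  have ρ4 : ∀ n, ρ (n + 1) ≤ ρ n / 4 := fun n => x2 _ _ _ (ρ0 n) (r0 n)
  have ρa : Antitone ρ := antitone_nat_of_succ_le (fun n => by
    have := ρ4 n; have := ρ0 n; linarith)
  have St : ∀ n, Stage p o (K (J n)) (ρ n) (rr n) (Q n) := fun n => s5 _ _ _ (ρ0 n)
  have hsum : ∀ (F : Finset ℕ) v, ∑ n ∈ F, Q n v ≤ C * nr v := by
    intro F
    refine H.max _ _ (by linarith) (SN.finsum hp F (fun n => (St n).sn))
      (Finset.sum_eq_zero (fun n _ => (St n).base)) (fun x y => ?_)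
    set d := dist x y with hd
    have d0 : 0 ≤ d := dist_nonneg
    have dp : 0 ≤ d ^ p := by positivity
    have A0 : 0 ≤ (1 + 3 ^ p) * d ^ p := by positivity
    have pt : ∀ n, Q n (single x 1 - single y 1) ≤
        (if ρ n ≤ d then 2 * 3 ^ p * ρ n ^ p else 0) + (1 / 2) ^ n * d ^ p
        + (if ρ (n + 1) ≤ d ∧ d < ρ n then (1 + 3 ^ p) * d ^ p else 0)
        + (if 3 * ρ n / 4 < infDist x (K (J n)) ∧ infDist x (K (J n)) < 9 * ρ n / 4
          then (1 + 3 ^ p) * d ^ p else 0) := by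
      intro n
      have t1 : 0 ≤ (if ρ n ≤ d then 2 * 3 ^ p * ρ n ^ p else 0) := by
        have := ρ0 n
        split_ifs <;> positivity
      have t2 : 0 ≤ (1 / 2 : ℝ) ^ n * d ^ p := by positivity
      have t3 : 0 ≤ (if ρ (n + 1) ≤ d ∧ d < ρ n then (1 + 3 ^ p) * d ^ p else 0) := by
        split_ifs <;> positivity
      have t4 : 0 ≤ (if 3 * ρ n / 4 < infDist x (K (J n)) ∧ infDist x (K (J n)) < 9 * ρ n / 4
          then (1 + 3 ^ p) * d ^ p else 0) := by
        split_ifs <;> positivity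
      by_cases c1 : ρ n ≤ d
      · have := (St n).b2 x y
        rw [if_pos c1]; linarith
      by_cases c2 : ρ (n + 1) ≤ d
      · have := (St n).b1 x y
        rw [if_pos (And.intro c2 (not_le.mp c1))]; linarith
      by_cases c3 : (infDist x (K (J n)) ≤ ρ n ∧ infDist y (K (J n)) ≤ ρ n) ∨
          (2 * ρ n ≤ infDist x (K (J n)) ∧ 2 * ρ n ≤ infDist y (K (J n)))
      · have a1 := (St n).b3 x y c3
        have a2 : d = d ^ (1 - p) * d ^ p := by
          rw [← Real.rpow_add' d0 (by norm_num)]; simp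
        have a3 : d ^ (1 - p) ≤ ρ (n + 1) ^ (1 - p) :=
          Real.rpow_le_rpow d0 (not_le.mp c2).le (by linarith)
        have a4 := x4 n _ _ (ρ0 n) (r0 n)
        rw [← ρs] at a4
        have a5 : 0 ≤ rr n ^ (p - 1) := by have := r0 n; positivity
        have a6 : rr n ^ (p - 1) * d ≤ (1 / 2) ^ n * d ^ p := by
          calc rr n ^ (p - 1) * d = (rr n ^ (p - 1) * d ^ (1 - p)) * d ^ p := by
                rw [mul_assoc, ← a2]
            _ ≤ _ := mul_le_mul_of_nonneg_right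
                ((mul_le_mul_of_nonneg_left a3 a5).trans a4) dp
        linarith
      · have a0 := (St n).b1 x y
        have a1 := infDist_le_infDist_add_dist (x := x) (y := y) (s := K (J n))
        have a2 := infDist_le_infDist_add_dist (x := y) (y := x) (s := K (J n))
        rw [dist_comm y x] at a2
        have a3 := ρ4 n
        have a4 := ρ0 n
        rw [not_le] at c2
        rw [not_or, not_and_or, not_and_or] at c3
        have : 3 * ρ n / 4 < infDist x (K (J n)) ∧ infDist x (K (J n)) < 9 * ρ n / 4 := by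
          constructor
          · rcases c3.1 with h | h <;> linarith [not_le.mp h]
          · rcases c3.2 with h | h <;> linarith [not_le.mp h]
        rw [if_pos this]; linarith
    refine (Finset.sum_le_sum (fun n _ => pt n)).trans ?_
    rw [Finset.sum_add_distrib, Finset.sum_add_distrib, Finset.sum_add_distrib]
    have S1 : ∑ n ∈ F, (if ρ n ≤ d then 2 * 3 ^ p * ρ n ^ p else 0) ≤ 2 * 3 ^ p * (2 * d ^ p) := by
      rw [← Finset.sum_filter, ← Finset.mul_sum]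
      refine mul_le_mul_of_nonneg_left (geo_sum (fun n => ρ n ^ p)
        (fun n => by have := ρ0 n; positivity) (fun n => x3 _ _ _ (ρ0 n) (r0 n)) _ _ dp
        (fun n hn => Real.rpow_le_rpow (ρ0 n).le (Finset.mem_filter.mp hn).2 hp.le))
        (by positivity)
    have S2 : ∑ n ∈ F, (1 / 2 : ℝ) ^ n * d ^ p ≤ 2 * d ^ p := by
      rw [← Finset.sum_mul]
      refine mul_le_mul_of_nonneg_right ?_ dp
      exact (summable_geometric_two.sum_le_tsum F (fun _ _ => by positivity)).trans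
        tsum_geometric_two.le
    have S3 := sum_le_one A0 (fun n => ρ (n + 1) ≤ d ∧ d < ρ n) (fun n m hnm h1 h2 => by
      have : ρ m ≤ ρ (n + 1) := ρa (Nat.succ_le_of_lt hnm)
      linarith [h1.1, h2.2]) F
    have S4 := sum_le_one A0 (fun n => 3 * ρ n / 4 < infDist x (K (J n)) ∧
        infDist x (K (J n)) < 9 * ρ n / 4) (fun n m hnm h1 h2 => by
      have a1 : ρ m ≤ ρ (n + 1) := ρa (Nat.succ_le_of_lt hnm)
      have a2 := ρ4 n
      have a3 : infDist x (K (J n)) ≤ infDist x (K (J m)) :=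
        infDist_le_infDist_of_subset (T.anti (Jm hnm.le)) ⟨o, T.base _⟩
      have := ρ0 m
      linarith [h1.1, h2.2]) F
    rw [hC]
    linarith
  apply hno
  refine ⟨fun n => c n (st n).1 (st n).2, fun n => s3 _ _ _ (ρ0 n), ?_⟩
  refine ellp (q := Q) (fun n => (St n).sn) (C := C) (B := B) (s := s / 8 / 2 ^ p) (by linarith)
    (by positivity) hsum _ (fun n => hB _ _ (s3 _ _ _ (ρ0 n))) (fun n => ?_)
  have a1 := s6 n _ (st n).2 (ρ0 n)
  have a2 := s4 n _ (st n).2 (ρ0 n)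
  have a3 := (St n).sn.le_add_sub (c' n (st n).1 (st n).2) (c n (st n).1 (st n).2)
  have a4 := hsum {n} (c' n (st n).1 (st n).2 - c n (st n).1 (st n).2)
  rw [Finset.sum_singleton, H.sn.sub_rev] at a4
  have a5 := mul_le_mul_of_nonneg_left a2 (by linarith : 0 ≤ C)
  have e : C * ε = s / 8 / 2 ^ p := by rw [hε]; field_simp
  have e2 : s / 4 / 2 ^ p = 2 * (s / 8 / 2 ^ p) := by ring
  change s / 4 / 2 ^ p ≤ Q n (c' n (st n).1 (st n).2) at a1
  change nr (c n (st n).1 (st n).2 - c' n (st n).1 (st n).2) ≤ ε at a2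
  change C * nr (c n (st n).1 (st n).2 - c' n (st n).1 (st n).2) ≤ C * ε at a5
  linarith

end Pool.Agent.H.MP_a71740_an
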