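import Pool.Agent.H.MP_a71740_an.M
set_option autoImplicit false

namespace Pool.Agent.H.MP_a71740_an
open Set Metric Filter Topology Finsupp
open Pool.Agent.H.MP_1a7c10_an

universe u

variable {p : ℝ} {M : Type u} [MetricSpace M] {o : M}

theorem schur_X {X : Type u} [NormedAddCommGroup X] [Module ℝ X] (hp1 : p < 1)
    (hom : ∀ (t : ℝ) (u : X), ‖t • u‖ = ‖t‖ ^ p * ‖u‖) (L : (M →₀ ℝ) →ₗ[ℝ] X)
    (H : Fr ℝ p o (fun v => ‖L v‖)) (hd : ∀ w : X, ∀ η > 0, ∃ v, ‖w - L v‖ < η)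
    (A : Set X) (hA : A.Infinite) {B s : ℝ} (hB : ∀ w ∈ A, ‖w‖ ≤ B) (hs : 0 < s)
    (sep : ∀ x ∈ A, ∀ y ∈ A, x ≠ y → s ≤ ‖x - y‖) :
    ∃ x : ℕ → X, (∀ n, x n ∈ A) ∧ ∃ κ > 0, ∀ (F : Finset ℕ) (a : ℕ → ℝ),
      κ * ∑ n ∈ F, ‖a n‖ ^ p ≤ ‖∑ n ∈ F, a n • x n‖ := by
  obtain ⟨v, h1, h2⟩ := core H hp1
    (fun n v => ∃ w ∈ A, ‖w - L v‖ ≤ 1 / ((n:ℝ) + 1)) (B := B + 1) (s := s / 2)
    (by
      rintro n m c hnm ⟨w, hw, hc⟩
      exact ⟨w, hw, hc.trans (Nat.one_div_le_one_div hnm)⟩)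
    (by
      rintro n v ⟨w, hw, hv⟩
      have a1 := hB w hw
      have a2 : 1 / ((n:ℝ) + 1) ≤ 1 := by
        rw [div_le_one (by positivity)]; have := n.cast_nonneg (α := ℝ); linarith
      have a3 := norm_sub_le w (w - L v)
      rw [sub_sub_cancel] at a3
      linarith) (by positivity) (fun n => by
      let w := hA.natEmbedding
      choose v hv using fun k => hd (w k) (min (1 / ((n:ℝ) + 1)) (s / 4)) (by positivity)
      refine ⟨v, fun k => ⟨w k, (w k).2, (hv k).le.trans (min_le_left _ _)⟩, fun k l hkl => ?_⟩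
      have a1 := sep _ (w k).2 _ (w l).2 (fun h => hkl (w.injective (Subtype.ext h)))
      have a2 := (hv k).le.trans (min_le_right _ _)
      have a3 := (hv l).le.trans (min_le_right _ _)
      have e : (w k : X) - w l = (w k - L (v k)) + L (v k - v l) - (w l - L (v l)) := by
        rw [map_sub]; abel
      rw [e] at a1
      have a4 := norm_sub_le ((w k - L (v k)) + L (v k - v l)) (w l - L (v l))
      have a5 := norm_add_le (w k - L (v k)) (L (v k - v l))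
      linarith)
  exact perturb hom L A v h1 h2

variable {X : Type u} [AddCommGroup X] [Module ℝ X] {N : X → ℝ}

theorem schurP_of (hp0 : 0 < p) (hp1 : p < 1) (hB : IsPBanach ℝ p X N)
    (L : (M →₀ ℝ) →ₗ[ℝ] X) (H : Fr ℝ p o (fun v => N (L v) ^ p))
    (hd : ∀ w : X, ∀ η > 0, ∃ v, N (w - L v) < η) : SchurP ℝ p N := by
  letI := hB.ng hp0
  have hn : ∀ x : X, ‖x‖ = N x ^ p := fun _ => rfl
  rintro A hA ⟨B, hAB⟩ ⟨s, hs, sep⟩
  obtain ⟨x, hx, κ, hκ, hl⟩ := schur_X (o := o) hp1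
    (fun t x => by rw [hn, hn, hB.smul, Real.mul_rpow (norm_nonneg _) (hB.nonneg _)]) L H
    (fun w η hη => by
      obtain ⟨v, hv⟩ := hd w (η ^ (1 / p)) (by positivity)
      exact ⟨v, by rw [hn, lt2 hp0 (hB.nonneg _) hη]; exact hv⟩) A hA (B := B ^ p) (s := s ^ p)
    (fun w hw => Real.rpow_le_rpow (hB.nonneg _) (hAB w hw) hp0.le) (by positivity)
    (fun x hx y hy hxy => Real.rpow_le_rpow hs.le (sep x hx y hy hxy) hp0.le)
  exact ⟨x, hx, hB.equivLp hp0 x B κ hκ (fun n => hAB _ (hx n)) hl⟩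

theorem isFree_schurP (hp0 : 0 < p) (hp1 : p < 1) {δ : M → X} (hF : IsFree ℝ p o X N δ) :
    SchurP ℝ p N := by
  have hB := hF.banach
  letI := hB.ng hp0
  have hn : ∀ x : X, ‖x‖ = N x ^ p := fun _ => rfl
  refine schurP_of hp0 hp1 hB (linearCombination ℝ δ) (hF.ctx hp0).fr (fun w η hη => ?_)
  obtain ⟨v, hv⟩ := (hF.ctx hp0).approx w (η := η ^ p) (by positivity)
  exact ⟨v, by rwa [hn, lt1 hp0 (hB.nonneg _) hη] at hv⟩

theorem findim_of_schurP (hp0 : 0 < p) (hp1 : p < 1) (hS : SchurP ℝ p N)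
    {Z : Type*} [NormedAddCommGroup Z] [NormedSpace ℝ Z] (T : Z →ₗ[ℝ] X) {c C : ℝ} (hc : 0 < c)
    (h1 : ∀ z, c * ‖z‖ ≤ N (T z)) (h2 : ∀ z, N (T z) ≤ C * ‖z‖) : FiniteDimensional ℝ Z := by
  by_contra hZ
  obtain ⟨R, f, hR, f1, f2⟩ := exists_seq_norm_le_one_le_norm_sub (𝕜 := ℝ) hZ
  have sep : ∀ k l, k ≠ l → c ≤ N (T (f k) - T (f l)) := by
    intro k l hkl
    rw [← map_sub]
    have := mul_le_mul_of_nonneg_left (f2 hkl) hc.le
    linarith [h1 (f k - f l)]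
  have N0 : N 0 ≤ 0 := by simpa using h2 0
  have C0 : 0 ≤ |C| := abs_nonneg C
  have h3 : ∀ z, N (T z) ≤ |C| * ‖z‖ := fun z =>
    (h2 z).trans (mul_le_mul_of_nonneg_right (le_abs_self C) (norm_nonneg _))
  obtain ⟨x, hx, a, b, a0, -, hl⟩ := hS (range (fun k => T (f k)))
    (infinite_range_of_injective (fun k l hkl => by
      by_contra h
      have := sep k l h
      rw [hkl, sub_self] at this
      linarith))
    ⟨|C| * R, by
      rintro _ ⟨k, rfl⟩
      exact (h3 _).trans (mul_le_mul_of_nonneg_left (f1 k) C0)⟩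
    ⟨c, hc, by
      rintro _ ⟨k, rfl⟩ _ ⟨l, rfl⟩ h
      exact sep k l (fun e => h (by rw [e]))⟩
  choose k hk using hx
  have key : ∀ m : ℕ, 0 < m → a * (m:ℝ) ^ (1 / p - 1) ≤ |C| * R := by
    intro m hm
    have m0 : (0:ℝ) < m := by exact_mod_cast hm
    have a1 := (hl (Finset.range m) (fun _ => 1)).1
    simp only [norm_one, Real.one_rpow, Finset.sum_const, Finset.card_range, nsmul_eq_mul,
      mul_one, one_smul] at a1
    have e : ∑ n ∈ Finset.range m, x n = T (∑ n ∈ Finset.range m, f (k n)) := by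
      rw [map_sum]; exact Finset.sum_congr rfl (fun n _ => (hk n).symm)
    have a2 : ‖∑ n ∈ Finset.range m, f (k n)‖ ≤ m * R := by
      refine (norm_sum_le _ _).trans ?_
      have := Finset.sum_le_card_nsmul (Finset.range m) (fun n => ‖f (k n)‖) R (fun n _ => f1 _)
      simpa using this
    rw [e] at a1
    have a3 := a1.trans ((h3 _).trans (mul_le_mul_of_nonneg_left a2 C0))
    rw [Real.rpow_sub_one m0.ne', ← mul_div_assoc, div_le_iff₀ m0]
    linarith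
  have e0 : 0 < 1 / p - 1 := by
    have : 1 < 1 / p := by rw [lt_div_iff₀ hp0]; linarith
    linarith
  have ht := ((tendsto_rpow_atTop e0).comp tendsto_natCast_atTop_atTop).const_mul_atTop a0
  obtain ⟨m, m1, m2⟩ := ((ht.eventually_gt_atTop (|C| * R)).and (eventually_gt_atTop 0)).exists
  exact absurd (key m m2) (not_le.mpr m1)

end Pool.Agent.H.MP_a71740_an
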